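import Pool.Graph.R_pool_sql_team_seeded_3997aac3.Q161.MgS

set_option autoImplicit false

/-!
The numbers of the chambers of the minors of an arrangement, by the Möbius function of `L(A)`.
-/

namespace Pool.Agent.KS6_37.MG

open Q138.TopeMag Q138.MagHom Q161.Mg Module

section whitney
variable {E : Type} [AddCommGroup E] [Module ℝ E] {ι : Type} [DecidableEq ι]
  {f : ι → Module.Dual ℝ E}

/-- Whitney's formula for the number of the chambers -/
lemma tc_whitney [Module.Finite ℝ E] (B : Finset ι) : ∀ S : Finset ι, Disjoint S B →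
    tc f S B = ∑ T ∈ B.powerset, (-1 : ℤ) ^ (T.card + rk f (S ∪ T) + rk f S) := by
  induction B using Finset.induction_on with
  | empty =>
    intro S _
    unfold tc
    rw [Finset.powerset_empty, Finset.sum_singleton, Finset.sum_singleton, ib_pos, Finset.card_empty,
      Finset.union_empty, zero_add, Even.neg_one_pow ⟨_, rfl⟩]
    exact ⟨0, fun _ _ => map_zero _, fun i hi => absurd hi (Finset.notMem_empty i)⟩
  | insert i B hi ih =>
    intro S hS
    have hS1 : Disjoint S B := hS.mono_right (Finset.subset_insert i B)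
    have hS2 : Disjoint (insert i S) B := by
      rw [Finset.disjoint_insert_left]
      exact ⟨hi, hS1⟩
    rw [Finset.sum_powerset_insert hi]
    have hT : ∀ T ∈ B.powerset, (insert i T).card = T.card + 1 := fun T hT =>
      Finset.card_insert_of_notMem fun h => hi (Finset.mem_powerset.1 hT h)
    by_cases h1 : ∀ v ∈ NN f S, f i v = 0
    · rw [tc_insert_same hi h1, ← Finset.sum_add_distrib]
      symm
      refine Finset.sum_eq_zero fun T hT' => ?_
      have h2 : rk f (S ∪ insert i T) = rk f (S ∪ T) := by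
        rw [Finset.union_insert]
        exact rk_insert_same fun v hv => h1 v (mem_NN.2 fun j hj =>
          mem_NN.1 hv j (Finset.mem_union_left _ hj))
      rw [hT T hT', h2]
      ring
    · push Not at h1
      obtain ⟨v, hv, hvi⟩ := h1
      rw [tc_insert_succ hi hS hv hvi, ih S hS1, ih (insert i S) hS2]
      congr 1
      refine Finset.sum_congr rfl fun T hT' => ?_
      rw [hT T hT', rk_insert_succ hv hvi, Finset.union_insert, Finset.insert_union]
      congr 1
      ring

end whitney

/-! ### The intersection lattice -/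

section lattice
variable {d : ℕ} {A : Arrangement d}

/-- The codimension of the flat `X` (the rank of `X` in `L(A)`). -/
noncomputable def codim (X : IntersectionLattice A) : ℕ :=
  d - finrank ℝ (OrderDual.ofDual X).1

open Classical in
/-- The (indices of the) hyperplanes that contain the flat `X` (the atoms below `X`). -/
noncomputable def atm (X : IntersectionLattice A) : Finset A.ι :=
  Finset.univ.filter fun i => (OrderDual.ofDual X).1 ≤ LinearMap.ker (A.form i)

/-- the flat of a set of hyperplanes -/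
noncomputable def fl (S : Finset A.ι) : IntersectionLattice A := OrderDual.toDual (nn S)

lemma mem_atm {X : IntersectionLattice A} {i : A.ι} :
    i ∈ atm X ↔ (OrderDual.ofDual X).1 ≤ LinearMap.ker (A.form i) := by
  unfold atm
  simp

lemma fl_le_iff {S : Finset A.ι} {X : IntersectionLattice A} : fl S ≤ X ↔ S ⊆ atm X := by
  have h1 : fl S ≤ X ↔ (OrderDual.ofDual X).1 ≤ NN A.form S := Iff.rfl
  rw [h1]
  constructor
  · intro h i hi
    rw [mem_atm]
    intro v hv
    exact mem_NN.1 (h hv) i hi
  · intro h v hv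
    rw [mem_NN]
    intro i hi
    exact mem_atm.1 (h hi) hv

lemma fl_atm (X : IntersectionLattice A) : fl (atm X) = X := by
  apply le_antisymm
  · exact fl_le_iff.2 subset_rfl
  · obtain ⟨S, hS⟩ := (OrderDual.ofDual X).2
    show NN A.form (atm X) ≤ (OrderDual.ofDual X).1
    intro v hv
    rw [hS, Submodule.mem_iInf]
    intro i
    rw [Submodule.mem_iInf]
    intro hi
    refine mem_NN.1 hv i (mem_atm.2 ?_)
    rw [hS]
    exact iInf₂_le i hi

lemma le_iff_atm {X Y : IntersectionLattice A} : X ≤ Y ↔ atm X ⊆ atm Y := by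
  rw [← fl_le_iff, fl_atm]

lemma subset_atm_fl (S : Finset A.ι) : S ⊆ atm (fl S) := fl_le_iff.1 le_rfl

lemma fl_mono {S T : Finset A.ι} (h : S ⊆ T) : fl S ≤ fl T :=
  fl_le_iff.2 (h.trans (subset_atm_fl T))

lemma codim_fl (S : Finset A.ι) : codim (fl S) = rk A.form S := by
  unfold codim rk
  rw [finrank_fin_fun]
  rfl

instance : Finite (IntersectionLattice A) :=
  Finite.of_injective (atm : IntersectionLattice A → Finset A.ι) fun X Y h => by
    rw [← fl_atm X, ← fl_atm Y, h]

noncomputable instance : Fintype (IntersectionLattice A) := Fintype.ofFinite _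

noncomputable instance : DecidableEq (IntersectionLattice A) := Classical.decEq _

open Classical in
noncomputable instance : LocallyFiniteOrder (IntersectionLattice A) :=
  Fintype.toLocallyFiniteOrder

/-- `∑ μ(X, Z) (-1)^(rk Z - rk X)` over `X ≤ Z ≤ Y`; by Zaslavsky's theorem this is the number of
the chambers of the restriction to `X` of the arrangement of the hyperplanes containing `Y`. -/
noncomputable def ch (X Y : IntersectionLattice A) : ℤ :=
  ∑ Z ∈ Finset.Icc X Y, (-1 : ℤ) ^ (codim Z + codim X) * IncidenceAlgebra.mu ℤ X Z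

/-- the numbers that turn out to be the values of the Möbius function -/
noncomputable def nu [DecidableEq A.ι] (S B : Finset A.ι) (Z : IntersectionLattice A) : ℤ :=
  ∑ T ∈ B.powerset.filter (fun T => fl (S ∪ T) = Z), (-1 : ℤ) ^ T.card

lemma sum_nu [DecidableEq A.ι] {S B : Finset A.ι} (hd : Disjoint S B) (hS : atm (fl S) = S)
    (hSB : atm (fl (S ∪ B)) = S ∪ B) {Z : IntersectionLattice A} (h1 : fl S ≤ Z)
    (h2 : Z ≤ fl (S ∪ B)) : ∑ Y ∈ Finset.Icc (fl S) Z, nu S B Y = if fl S = Z then 1 else 0 := by
  have h3 : ∀ T ∈ B.powerset, fl (S ∪ T) ∈ Finset.Icc (fl S) Z ↔ T ∈ (B ∩ atm Z).powerset := by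
    intro T hT
    rw [Finset.mem_Icc, Finset.mem_powerset, fl_le_iff (X := Z)]
    constructor
    · exact fun h => Finset.subset_inter (Finset.mem_powerset.1 hT)
        (Finset.subset_union_right.trans h.2)
    · exact fun h => ⟨fl_mono Finset.subset_union_left,
        Finset.union_subset (fl_le_iff.1 h1) (h.trans Finset.inter_subset_right)⟩
  have h4 : ∑ Y ∈ Finset.Icc (fl S) Z, nu S B Y = ∑ T ∈ (B ∩ atm Z).powerset, (-1 : ℤ) ^ T.card := by
    unfold nu
    rw [← Finset.sum_fiberwise_of_maps_to (s := (B ∩ atm Z).powerset) (t := Finset.Icc (fl S) Z)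
      (g := fun T => fl (S ∪ T)) (fun T hT => (h3 T (Finset.mem_powerset.2
        ((Finset.mem_powerset.1 hT).trans Finset.inter_subset_left))).2 hT)]
    refine Finset.sum_congr rfl fun Y hY => ?_
    refine Finset.sum_congr ?_ fun _ _ => rfl
    ext T
    rw [Finset.mem_filter, Finset.mem_filter]
    constructor
    · rintro ⟨h5, h6⟩
      exact ⟨(h3 T h5).1 (h6 ▸ hY), h6⟩
    · rintro ⟨h5, h6⟩
      exact ⟨Finset.mem_powerset.2 ((Finset.mem_powerset.1 h5).trans Finset.inter_subset_left), h6⟩
  rw [h4, Finset.sum_powerset_neg_one_pow_card]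
  refine if_congr ?_ rfl rfl
  have h7 : atm Z ⊆ S ∪ B := hSB ▸ le_iff_atm.1 h2
  constructor
  · intro h
    apply le_antisymm h1
    rw [le_iff_atm, hS]
    intro i hi
    rcases Finset.mem_union.1 (h7 hi) with h8 | h8
    · exact h8
    · exact absurd (h ▸ Finset.mem_inter.2 ⟨h8, hi⟩ : i ∈ (∅ : Finset A.ι)) (Finset.notMem_empty i)
  · intro h
    rw [← h, hS]
    exact Finset.disjoint_iff_inter_eq_empty.1 hd.symm

lemma nu_eq [DecidableEq A.ι] {S B : Finset A.ι} (hd : Disjoint S B) (hS : atm (fl S) = S)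
    (hSB : atm (fl (S ∪ B)) = S ∪ B) (Z : IntersectionLattice A) : fl S ≤ Z →
    Z ≤ fl (S ∪ B) → nu S B Z = IncidenceAlgebra.mu ℤ (fl S) Z := by
  induction Z using WellFoundedLT.induction with
  | _ Z ih =>
    intro h1 h2
    have h3 := sum_nu hd hS hSB h1 h2
    rw [← IncidenceAlgebra.sum_Icc_mu_right, ← Finset.Ico_insert_right h1,
      Finset.sum_insert Finset.right_notMem_Ico, Finset.sum_insert Finset.right_notMem_Ico] at h3
    rw [Finset.sum_congr rfl fun Y hY => ih Y (Finset.mem_Ico.1 hY).2 (Finset.mem_Ico.1 hY).1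
      ((Finset.mem_Ico.1 hY).2.le.trans h2)] at h3
    exact add_right_cancel h3

/-- **Zaslavsky's theorem** for the minors of `A`. -/
lemma tc_ch [DecidableEq A.ι] {S B : Finset A.ι} (hd : Disjoint S B) (hS : atm (fl S) = S)
    (hSB : atm (fl (S ∪ B)) = S ∪ B) : tc A.form S B = ch (fl S) (fl (S ∪ B)) := by
  rw [tc_whitney B S hd]
  unfold ch
  rw [← Finset.sum_fiberwise_of_maps_to (s := B.powerset) (t := Finset.Icc (fl S) (fl (S ∪ B)))
      (g := fun T => fl (S ∪ T)) (fun T hT => Finset.mem_Icc.2 ⟨fl_mono Finset.subset_union_left,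
        fl_mono (Finset.union_subset_union_right (Finset.mem_powerset.1 hT))⟩)]
  refine Finset.sum_congr rfl fun Z hZ => ?_
  have h1 := nu_eq hd hS hSB Z (Finset.mem_Icc.1 hZ).1 (Finset.mem_Icc.1 hZ).2
  have h2 : (-1 : ℤ) ^ (codim Z + codim (fl S)) * nu S B Z =
      (-1 : ℤ) ^ (codim Z + codim (fl S)) * IncidenceAlgebra.mu ℤ (fl S) Z := by rw [h1]
  refine Eq.trans ?_ (Eq.trans h2 ?_)
  · unfold nu
    rw [Finset.mul_sum]
    refine Finset.sum_congr rfl fun T hT => ?_
    rw [Finset.mem_filter] at hT
    rw [← hT.2, codim_fl, codim_fl, ← pow_add]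
    congr 1
    ring
  · rfl

end lattice

end Pool.Agent.KS6_37.MG
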