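import Pool.Agent.KS6_37.MG.Lat

set_option autoImplicit false

/-!
The ranks of the magnitude homology groups as sums over multichains of `L(A)`.
-/

namespace Pool.Agent.KS6_37.MG

open Q138.TopeMag Q138.MagHom Q161.Mg Module

variable {d : ℕ} {A : Arrangement d}

/-- `1̂ = x_0 ≥ x_1 ≥ … ≥ x_{l+1} = 0̂` is a multichain of `L(A)`; the ranks of `x_1, …, x_{l+1}`
sum up to `k`, and the numbers of the atoms below them sum up to `l`. -/
def IsMultichain (A : Arrangement d) (k l : ℕ) (x : Fin (l + 2) → IntersectionLattice A) : Prop :=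
  Antitone x ∧ IsTop (x 0) ∧ IsBot (x (Fin.last (l + 1))) ∧
    ∑ j : Fin (l + 1), codim (x j.succ) = k ∧ ∑ j : Fin (l + 1), (atm (x j.succ)).card = l

open Classical in
/-- The sum over the multichains of the products of the numbers of chambers. -/
noncomputable def latticeSum (A : Arrangement d) (k l : ℕ) : ℤ :=
  ∑ x : Fin (l + 2) → IntersectionLattice A with IsMultichain A k l x,
    ∏ j : Fin (l + 1), ch (x j.succ) (x j.castSucc)

def lev (lam : A.ι → ℕ) (j : ℕ) : Finset A.ι := Finset.univ.filter fun i => j ≤ lam i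

lemma mem_lev {lam : A.ι → ℕ} {j : ℕ} {i : A.ι} : i ∈ lev lam j ↔ j ≤ lam i := by
  unfold lev
  simp

lemma lev_succ (lam : A.ι → ℕ) (j : ℕ) :
    (Finset.univ.filter fun i => j < lam i) = lev lam (j + 1) := rfl

lemma lev_anti (lam : A.ι → ℕ) {j j' : ℕ} (h : j ≤ j') : lev lam j' ⊆ lev lam j := by
  intro i hi
  rw [mem_lev] at hi ⊢
  omega

lemma atm_empty : atm (fl (∅ : Finset A.ι)) = ∅ := by
  rw [Finset.eq_empty_iff_forall_notMem]
  intro i hi
  rw [mem_atm] at hi
  apply A.form_ne_zero i
  refine LinearMap.ext fun v => ?_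
  have h1 : v ∈ NN A.form (∅ : Finset A.ι) := mem_NN.2 fun i hi => absurd hi (Finset.notMem_empty i)
  exact hi h1

lemma cardFin {n m : ℕ} (h : m ≤ n) : (Finset.univ.filter fun j : Fin n => j.val < m).card = m := by
  rw [Finset.card_filter, Fin.sum_univ_eq_sum_range (fun j => if j < m then 1 else 0) n,
    ← Finset.card_filter]
  have : (Finset.range n).filter (fun j => j < m) = Finset.range m := by
    ext j
    simp only [Finset.mem_filter, Finset.mem_range]
    omega
  rw [this, Finset.card_range]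

lemma le_of_sum {lam : A.ι → ℕ} {l : ℕ} (h : ∑ i, lam i = l) (i : A.ι) : lam i ≤ l :=
  h ▸ Finset.single_le_sum (f := lam) (fun i _ => Nat.zero_le _) (Finset.mem_univ i)

lemma lev_empty {lam : A.ι → ℕ} {l : ℕ} (h : ∑ i, lam i = l) {j : ℕ} (hj : l < j) :
    lev lam j = ∅ := by
  rw [Finset.eq_empty_iff_forall_notMem]
  intro i hi
  rw [mem_lev] at hi
  have := le_of_sum h i
  omega

lemma kap_lev {lam : A.ι → ℕ} {l : ℕ} (h : ∑ i, lam i = l) :
    kap A.form lam = ∑ j : Fin (l + 1), rk A.form (lev lam (j + 1)) := by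
  rw [Fin.sum_univ_eq_sum_range (fun j => rk A.form (lev lam (j + 1))) (l + 1),
    Finset.sum_range_succ, lev_empty h (Nat.lt_succ_self l), rk_empty, add_zero]
  unfold kap
  rw [h]
  rfl

lemma sum_lev {lam : A.ι → ℕ} {l : ℕ} (h : ∑ i, lam i = l) :
    ∑ j : Fin (l + 1), (lev lam (j + 1)).card = l := by
  unfold lev
  simp only [Finset.card_filter]
  rw [Finset.sum_comm]
  refine Eq.trans (Finset.sum_congr rfl fun i _ => ?_) h
  rw [← Finset.card_filter]
  exact cardFin (n := l + 1) (m := lam i) (by have := le_of_sum h i; omega)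

/-- all level sets are flats -/
def Cl (lam : A.ι → ℕ) : Prop := ∀ j, atm (fl (lev lam j)) = lev lam j

lemma ng_zero [DecidableEq A.ι] {lam : A.ι → ℕ} (h : ¬ Cl lam) : ng A.form lam = 0 := by
  unfold Cl at h
  push Not at h
  obtain ⟨j, hj⟩ := h
  obtain ⟨i, hi, hi'⟩ : ∃ i ∈ atm (fl (lev lam j)), i ∉ lev lam j := by
    by_contra hc
    push Not at hc
    exact hj (Finset.Subset.antisymm hc (subset_atm_fl _))
  rw [mem_lev, not_le] at hi'
  rw [ng_prod]
  apply Finset.prod_eq_zero (i := lam i)
  · rw [Finset.mem_range]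
    have := le_of_sum (lam := lam) rfl i
    omega
  · have h1 : i ∈ Finset.univ.filter fun i' => lam i' = lam i :=
      Finset.mem_filter.2 ⟨Finset.mem_univ i, rfl⟩
    rw [← Finset.insert_erase h1]
    apply tc_insert_same (Finset.notMem_erase _ _)
    intro v hv
    rw [mem_atm] at hi
    have h2 : v ∈ NN A.form (lev lam j) := by
      rw [mem_NN] at hv ⊢
      intro i' hi2
      apply hv
      rw [mem_lev] at hi2
      exact Finset.mem_filter.2 ⟨Finset.mem_univ _, by omega⟩
    exact hi h2

lemma ng_cl [DecidableEq A.ι] {lam : A.ι → ℕ} {l : ℕ} (hl : ∑ i, lam i = l) (h : Cl lam) :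
    ng A.form lam = ∏ j : Fin (l + 1), ch (fl (lev lam (j + 1))) (fl (lev lam j)) := by
  rw [ng_prod, hl, Finset.prod_range]
  refine Finset.prod_congr rfl fun j _ => ?_
  have h1 : lev lam (j + 1) ∪ (Finset.univ.filter fun i => lam i = j) = lev lam j := by
    ext i
    rw [Finset.mem_union, mem_lev, mem_lev, Finset.mem_filter]
    constructor
    · rintro (h1 | ⟨_, h1⟩) <;> omega
    · intro h1
      rcases Nat.lt_or_ge j.1 (lam i) with h2 | h2
      · exact Or.inl h2
      · exact Or.inr ⟨Finset.mem_univ i, by omega⟩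
  have h2 : Disjoint (lev lam (j + 1)) (Finset.univ.filter fun i => lam i = j) := by
    rw [Finset.disjoint_left]
    intro i h1 h2
    rw [mem_lev] at h1
    have := (Finset.mem_filter.1 h2).2
    omega
  rw [lev_succ, tc_ch h2 (h _) (by rw [h1]; exact h _), h1]

noncomputable def toLam {l : ℕ} (x : Fin (l + 2) → IntersectionLattice A) : A.ι → ℕ :=
  open Classical in fun i => (Finset.univ.filter fun j : Fin (l + 1) => i ∈ atm (x j.succ)).card

lemma lev_toLam {k l : ℕ} {x : Fin (l + 2) → IntersectionLattice A} (hx : IsMultichain A k l x)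
    (j : Fin (l + 2)) : lev (toLam x) j = atm (x j) := by
  classical
  obtain ⟨h1, h2, h3, -⟩ := hx
  ext i
  rw [mem_lev]
  have h0 : i ∈ atm (x 0) := le_iff_atm.1 (h2 (fl {i})) (subset_atm_fl _ (Finset.mem_singleton_self i))
  constructor
  · intro h
    by_contra hc
    have hj : j.1 ≠ 0 := by
      intro hj
      have : j = 0 := Fin.ext hj
      rw [this] at hc
      exact hc h0
    have h4 : (Finset.univ.filter fun j' : Fin (l + 1) => i ∈ atm (x j'.succ)) ⊆
        Finset.univ.filter fun j' : Fin (l + 1) => j'.val < j.1 - 1 := by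
      intro j' hj'
      rw [Finset.mem_filter] at hj' ⊢
      refine ⟨Finset.mem_univ _, ?_⟩
      by_contra hlt
      apply hc
      refine le_iff_atm.1 (h1 ?_) hj'.2
      rw [Fin.le_def, Fin.val_succ]
      omega
    have h5 := Finset.card_le_card h4
    rw [cardFin (by omega)] at h5
    unfold toLam at h
    have h6 : j.1 ≤ (Finset.univ.filter fun j' : Fin (l + 1) => i ∈ atm (x j'.succ)).card := by
      convert h
    omega
  · intro h
    have h4 : (Finset.univ.filter fun j' : Fin (l + 1) => j'.val < j.1) ⊆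
        Finset.univ.filter fun j' : Fin (l + 1) => i ∈ atm (x j'.succ) := by
      intro j' hj'
      rw [Finset.mem_filter] at hj' ⊢
      refine ⟨Finset.mem_univ _, ?_⟩
      refine le_iff_atm.1 (h1 ?_) h
      rw [Fin.le_def, Fin.val_succ]
      omega
    have h5 := Finset.card_le_card h4
    rw [cardFin (by omega)] at h5
    unfold toLam
    convert h5

lemma sum_toLam {k l : ℕ} {x : Fin (l + 2) → IntersectionLattice A} (hx : IsMultichain A k l x) :
    ∑ i, toLam x i = l := by
  classical
  refine Eq.trans ?_ hx.2.2.2.2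
  unfold toLam
  simp only [Finset.card_filter]
  rw [Finset.sum_comm]
  refine Finset.sum_congr rfl fun j _ => ?_
  rw [← Finset.card_filter]
  congr 1
  ext i
  simp

lemma codim_eq (X : IntersectionLattice A) : codim X = rk A.form (atm X) := by
  rw [← codim_fl, fl_atm]

theorem latticeSum_eq [DecidableEq A.ι] (k l : ℕ) : latticeSum A k l =
    ∑ lam ∈ Finset.piAntidiag (Finset.univ : Finset A.ι) l,
      if k = kap A.form lam then ng A.form lam else 0 := by
  classical
  have e1 : ∑ lam ∈ Finset.piAntidiag (Finset.univ : Finset A.ι) l,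
      (if k = kap A.form lam then ng A.form lam else 0) =
      ∑ lam ∈ (Finset.piAntidiag (Finset.univ : Finset A.ι) l).filter
        (fun lam => k = kap A.form lam ∧ Cl lam), ng A.form lam := by
    rw [Finset.sum_filter]
    refine Finset.sum_congr rfl fun lam _ => ?_
    by_cases h1 : k = kap A.form lam
    · by_cases h2 : Cl lam
      · rw [if_pos h1, if_pos ⟨h1, h2⟩]
      · rw [if_pos h1, if_neg fun h => h2 h.2, ng_zero h2]
    · rw [if_neg h1, if_neg fun h => h1 h.1]
  rw [e1]
  unfold latticeSum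
  symm
  refine Finset.sum_nbij' (fun lam => fun j : Fin (l + 2) => fl (lev lam j.val)) (fun x => toLam x)
    ?_ ?_ ?_ ?_ ?_
  · intro lam hlam
    rw [Finset.mem_filter, Finset.mem_piAntidiag] at hlam
    obtain ⟨⟨hl, _⟩, hk, hc⟩ := hlam
    rw [Finset.mem_filter]
    refine ⟨Finset.mem_univ _, fun a b hab => fl_mono (lev_anti lam hab), fun y => ?_, fun y => ?_,
      ?_, ?_⟩
    · rw [le_iff_atm]
      refine fun i _ => subset_atm_fl _ ?_
      rw [mem_lev]
      exact Nat.zero_le _
    · rw [fl_le_iff, Fin.val_last, lev_empty hl (Nat.lt_succ_self l)]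
      exact Finset.empty_subset _
    · rw [hk, kap_lev hl]
      refine Finset.sum_congr rfl fun j _ => ?_
      rw [codim_fl, Fin.val_succ]
    · refine Eq.trans (Finset.sum_congr rfl fun j _ => ?_) (sum_lev hl)
      rw [hc, Fin.val_succ]
  · intro x hx
    rw [Finset.mem_filter] at hx
    have hx := hx.2
    have hs := sum_toLam hx
    rw [Finset.mem_filter, Finset.mem_piAntidiag]
    refine ⟨⟨hs, fun i _ => Finset.mem_univ i⟩, ?_, fun j => ?_⟩
    · rw [kap_lev hs, ← hx.2.2.2.1]
      refine Finset.sum_congr rfl fun j _ => ?_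
      rw [codim_eq, ← lev_toLam hx, Fin.val_succ]
    · by_cases hj : j < l + 2
      · have h1 := lev_toLam hx ⟨j, hj⟩
        simp only at h1
        rw [h1, fl_atm]
      · rw [lev_empty hs (by omega), atm_empty]
  · intro lam hlam
    rw [Finset.mem_filter, Finset.mem_piAntidiag] at hlam
    obtain ⟨⟨hl, _⟩, hk, hc⟩ := hlam
    funext i
    unfold toLam
    have h1 : (Finset.univ.filter fun j : Fin (l + 1) => i ∈ atm (fl (lev lam j.succ.val))) =
        Finset.univ.filter fun j : Fin (l + 1) => j.val < lam i := by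
      ext j
      rw [Finset.mem_filter, Finset.mem_filter, hc, mem_lev, Fin.val_succ]
      rfl
    refine Eq.trans ?_ (cardFin (n := l + 1) (m := lam i) (by have := le_of_sum hl i; omega))
    rw [← h1]
    congr
  · intro x hx
    rw [Finset.mem_filter] at hx
    funext j
    show fl (lev (toLam x) j.val) = x j
    rw [lev_toLam hx.2, fl_atm]
  · intro lam hlam
    rw [Finset.mem_filter, Finset.mem_piAntidiag] at hlam
    obtain ⟨⟨hl, _⟩, hk, hc⟩ := hlam
    rw [ng_cl hl hc]
    rfl

lemma ib_nonneg (P : Prop) : 0 ≤ ib P := by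
  by_cases h : P
  · rw [ib_pos h]
    exact zero_le_one
  · rw [ib_neg h]

lemma ch_pos {X Y : IntersectionLattice A} (h : X ≤ Y) : 1 ≤ ch X Y := by
  classical
  set S := atm X with hS
  set B := atm Y \ atm X with hB
  have h1 : S ∪ B = atm Y := by
    rw [hS, hB, Finset.union_sdiff_of_subset (le_iff_atm.1 h)]
  have h2 : tc A.form S B = ch X Y := by
    have h3 := tc_ch (A := A) (S := S) (B := B) Finset.disjoint_sdiff (by rw [hS, fl_atm])
      (by rw [h1, fl_atm])
    rw [h1, hS, fl_atm, fl_atm] at h3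
    exact h3
  rw [← h2]
  obtain ⟨p, hp, hp'⟩ := Module.Dual.exists_forall_mem_ne_zero_of_forall_exists
    (OrderDual.ofDual X).1 (fun i : B => A.form i) fun i => by
      have h3 : i.1 ∉ atm X := (Finset.mem_sdiff.1 i.2).2
      rw [mem_atm, SetLike.not_le_iff_exists] at h3
      obtain ⟨v, hv, hv'⟩ := h3
      exact ⟨v, hv, hv'⟩
  have h4 : TT A.form S B (B.filter fun i => 0 < A.form i p) := by
    refine ⟨p, fun i hi => mem_atm.1 hi hp, fun i hi => ?_⟩
    have h5 := hp' ⟨i, hi⟩
    simp only at h5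
    rcases lt_or_gt_of_ne h5 with h6 | h6
    · rw [sign_neg h6, if_neg]
      rw [Finset.mem_filter]
      exact fun h7 => absurd h7.2 (not_lt.2 h6.le)
    · rw [sign_pos h6, if_pos (Finset.mem_filter.2 ⟨hi, h6⟩)]
  unfold tc
  rw [← ib_pos h4]
  exact Finset.single_le_sum (f := fun P => ib (TT A.form S B P)) (fun P _ => ib_nonneg _)
    (Finset.mem_powerset.2 (Finset.filter_subset _ _))

lemma prod_pos' {k l : ℕ} {x : Fin (l + 2) → IntersectionLattice A} (hx : IsMultichain A k l x) :
    0 < ∏ j : Fin (l + 1), ch (x j.succ) (x j.castSucc) :=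
  Finset.prod_pos fun j _ => lt_of_lt_of_le zero_lt_one
    (ch_pos (hx.1 (Fin.castSucc_lt_succ (i := j)).le))

lemma latticeSum_eq_zero (k l : ℕ) :
    latticeSum A k l = 0 ↔ ¬ ∃ x, IsMultichain A k l x := by
  classical
  unfold latticeSum
  rw [Finset.sum_eq_zero_iff_of_nonneg fun x hx => (prod_pos' (Finset.mem_filter.1 hx).2).le]
  constructor
  · rintro h ⟨x, hx⟩
    exact (prod_pos' hx).ne' (h x (Finset.mem_filter.2 ⟨Finset.mem_univ _, hx⟩))
  · intro h x hx
    exact absurd ⟨x, (Finset.mem_filter.1 hx).2⟩ h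

end Pool.Agent.KS6_37.MG
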